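import Mathlib
import Pool.Agent.V11304.PM.Cyc

/-!
# MP_e1bcf3_nt, Q1 (affirmative answer)

For every odd prime `p` the permanent of the `p × p` matrix with ones on the
diagonal and `|j-k|` off the diagonal is congruent to `1/2` modulo `p`.
-/

namespace Pool.Agent.Results.MP_e1bcf3_nt.Full

/-- The matrix `[|j-k| + δ_{jk}]` of order `n` over the integers. -/
def A (n : ℕ) : Matrix (Fin n) (Fin n) ℤ :=
  Matrix.of fun j k => |((j : ℕ) : ℤ) - ((k : ℕ) : ℤ)| + if j = k then 1 else 0

/-- `2 D_p ≡ 1 (mod p)` for every odd prime `p`. -/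
theorem result : ∀ p : ℕ, p.Prime → p ≠ 2 →
    2 * (A p).permanent ≡ 1 [ZMOD p] := by
  intro p hp hp2
  have h := Pool.Agent.V11304.PM.main p hp hp2 1
  have h2 : (Matrix.of fun j k : Fin p =>
      if j = k then (1 : ℤ) else |((j : ℕ) : ℤ) - ((k : ℕ) : ℤ)|) = A p := by
    ext j k
    unfold A
    simp only [Matrix.of_apply]
    split_ifs with hjk
    · subst hjk; simp
    · rw [add_zero]
  rw [h2] at h
  rw [show (2 * 1 - 1 : ℤ) = 1 by norm_num] at h
  exact h

end Pool.Agent.Results.MP_e1bcf3_nt.Full
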